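import Pool.Agent.TH133.Base

/-!
# Algebraicity of one Kunneth component: definitions
-/

open CategoryTheory AlgebraicGeometry

universe u v w

namespace Pool.Agent.TH26.Mid

open Pool.Agent.H914 Pool.Agent.H914.VarClass Pool.Agent.H914.VarClass.Obj Pool.Agent.W492.BB
  Pool.Agent.TH133 Pool.Agent.W550.Corr

variable {k : Type u} [Field k] {𝒱 : VarClass k} {C : TheoryData.{u, v, 0} 𝒱 ℚ} {K : Type w}
  [Field K] (H : WeilTheoryData.{u, v, w} C K)

/-- The combinations of the classes of cycles of codimension `dim X` on `X × X`, with coefficients in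
the subfield `F` of `K`. -/
noncomputable def classSpan (F : Subfield K) (X : 𝒱.Obj) : Submodule F (H.A (X.prod X)) :=
  Submodule.span F {c | ∃ γ : C.A (X.prod X), C.Deg X.dim γ ∧ c = H.cl γ}

/-- The `i`-th Kunneth component of the diagonal of `X` is algebraic, with coefficients in the
subfield `F` of `K`: some combination with coefficients in `F` of classes of cycles of codimension
`dim X` on `X × X` acts as the identity on `H^i(X)` and as zero on `H^l(X)`, `l ≠ i`. -/
def ComponentAlgebraic (F : Subfield K) (X : 𝒱.Obj) (i : ℤ) : Prop :=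
  ∃ c ∈ classSpan H F X, ∀ (l : ℤ) (a : H.A X), H.Deg l a → H.act c a = if l = i then a else 0

/-- Some combination with coefficients in `F` of classes of cycles of codimension `dim X` on `X × X`
acts as the identity on the middle cohomology `H^n(X)`, `n = dim X`, and as zero on the cohomology
`H^l(X)` below the middle, `l < n`. -/
def SplitsFromBelow (F : Subfield K) (X : 𝒱.Obj) : Prop :=
  ∃ c ∈ classSpan H F X, ∀ (l : ℤ) (a : H.A X), H.Deg l a → l ≤ X.dim →
    H.act c a = if l = X.dim then a else 0

/-- The product `X × E × ⋯ × E` with `r` factors `E`. -/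
noncomputable def timesPow (X E : 𝒱.Obj) : ℕ → 𝒱.Obj
  | 0 => X
  | r + 1 => (timesPow X E r).prod E

/-- `E` is a curve of genus `g`: it has dimension one, and the self-intersection number of the
diagonal of `E × E` is `2 - 2 g`. -/
def IsCurveOfGenus (C : TheoryData.{u, v, 0} 𝒱 ℚ) (E : 𝒱.Obj) (g : ℕ) : Prop :=
  E.dim = 1 ∧ HasDegree C (C.up (Obj.lift (𝟙 E) (𝟙 E)) (dg C E)) (2 - 2 * g)

end Pool.Agent.TH26.Mid
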