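import Pool.Agent.TH26.Mid.Defs
import Pool.Agent.TH133.AlgEq

/-!
# Algebraicity of one Kunneth component
-/

open CategoryTheory AlgebraicGeometry

universe u v w

namespace Pool.Agent.TH26.Mid

open Pool.Agent.H914 Pool.Agent.H914.VarClass Pool.Agent.H914.VarClass.Obj Pool.Agent.W492.BB
  Pool.Agent.TH133 Pool.Agent.W550.Corr

set_option linter.unusedSectionVars false

variable {k : Type u} [Field k] {𝒱 : VarClass k}

section theory

variable {F : Type w} [Field F] {δ : ℤ} (T : TheoryData.{u, v, w} 𝒱 F) [hT : IsTheory T δ]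
  {X Y Z W P : 𝒱.Obj}

/-- The correspondence inducing `a ↦ g_* (w · f^* a)`. -/
noncomputable def roof (f : W ⟶ X) (g : W ⟶ Y) (w : T.A W) : T.A (X.prod Y) :=
  T.push (Obj.lift f g) w

/-- The projection `(X × P) × P → X`. -/
noncomputable def prX (X P : 𝒱.Obj) : (X.prod P).prod P ⟶ X := fst (X.prod P) P ≫ fst X P

/-- The projection `(X × P) × P → P × P`. -/
noncomputable def prP (X P : 𝒱.Obj) : (X.prod P).prod P ⟶ P.prod P := t23 X P P

/-- The slice of a correspondence of `X × P`. -/
noncomputable def slice (β β' : T.A (P.prod P)) (c : T.A ((X.prod P).prod (X.prod P))) :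
    T.A (X.prod X) :=
  T.comp (T.comp (roof T (prX X P) (𝟙 _) (T.pull (prP X P) β)) (tens T c (dg T P)))
    (roof T (𝟙 _) (prX X P) (T.pull (prP X P) β'))

/-- The external product with a fixed correspondence as a linear map. -/
noncomputable def tensR (Δ : T.A (P.prod P)) :
    T.A (X.prod X) →ₗ[F] T.A ((X.prod P).prod (X.prod P)) :=
  LinearMap.mulRight F (T.pull (prodMap (snd X P) (snd X P)) Δ) ∘ₗ
    (T.pull (prodMap (fst X P) (fst X P))).toLinearMap

lemma tensR_apply (Δ : T.A (P.prod P)) (c : T.A (X.prod X)) : tensR T Δ c = tens T c Δ := rfl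

/-- The slice as a linear map. -/
noncomputable def sliceL (X : 𝒱.Obj) (β β' : T.A (P.prod P)) :
    T.A ((X.prod P).prod (X.prod P)) →ₗ[F] T.A (X.prod X) :=
  (compL T).flip (roof T (𝟙 _) (prX X P) (T.pull (prP X P) β')) ∘ₗ
    (compL T) (roof T (prX X P) (𝟙 _) (T.pull (prP X P) β)) ∘ₗ tensR T (dg T P)

lemma sliceL_apply (β β' : T.A (P.prod P)) (c : T.A ((X.prod P).prod (X.prod P))) :
    sliceL T X β β' c = slice T β β' c := rfl

include hT

lemma act_roof (f : W ⟶ X) (g : W ⟶ Y) (w : T.A W) (a : T.A X) :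
    T.act (roof T f g w) a = T.push g (w * T.pull f a) := by
  rw [T.act_apply, roof, ← T.proj_right, ← T.push_comp, ← T.pull_comp, lift_fst, lift_snd]

lemma act_slice (β β' : T.A (P.prod P)) (c : T.A ((X.prod P).prod (X.prod P))) (a : T.A X) :
    T.act (slice T β β' c) a = T.push (prX X P) (T.pull (prP X P) β' *
      T.act (tens T c (dg T P)) (T.pull (prP X P) β * T.pull (prX X P) a)) := by
  rw [slice, T.act_comp, T.act_comp, act_roof, act_roof, T.push_id, T.pull_id]

lemma push_prX [hI : HasIso T] (z : T.A (P.prod P)) (q : F)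
    (h : T.push (fst X (P.prod P)) (T.pull (snd X (P.prod P)) z) = q • (1 : T.A X)) :
    T.push (prX X P) (T.pull (prP X P) z) = q • (1 : T.A X) := by
  have e1 : prX X P = aI X P P ≫ fst X (P.prod P) := by simp [aI, prX]
  have e2 : prP X P = aI X P P ≫ snd X (P.prod P) := by
    apply prod_ext <;> simp [aI, prP]
  rw [e1, e2, T.pull_comp, T.push_comp, push_pull_iso T (aI X P P) (aJ X P P) aI_aJ aJ_aI, h]

lemma ext_ext (a : T.A X) (b b' : T.A P) :
    T.pull (prX X P) a * T.pull (prP X P) (T.ext b b') = T.ext (T.ext a b) b' := by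
  rw [TheoryData.ext, map_mul, ← T.pull_comp, ← T.pull_comp, prP, t23_fst, t23_snd,
    TheoryData.ext, TheoryData.ext, map_mul (T.pull (fst (X.prod P) P)), ← T.pull_comp,
    ← T.pull_comp, prX, mul_assoc]

end theory

section chow

variable {C : TheoryData.{u, v, 0} 𝒱 ℚ} [hC : IsChowProj C] {X Y Z W P E : 𝒱.Obj}

lemma hasDegree_smul' {x : C.A X} {q : ℚ} (r : ℚ) (h : HasDegree C x q) :
    HasDegree C (r • x) (r * q) := by
  intro Y
  rw [map_smul, map_smul, map_smul, map_smul, (h Y).1, (h Y).2, smul_smul]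
  exact ⟨rfl, rfl⟩

lemma hasDegree_sub' {x y : C.A X} {q r : ℚ} (h : HasDegree C x q) (h' : HasDegree C y r) :
    HasDegree C (x - y) (q - r) := by
  intro Y
  rw [map_sub, map_sub, map_sub, map_sub, (h Y).1, (h Y).2, (h' Y).1, (h' Y).2, sub_smul]
  exact ⟨rfl, rfl⟩

include hC

lemma hasDegree_push {x : C.A X} {q : ℚ} (f : X ⟶ Y) (h : HasDegree C x q) :
    HasDegree C (C.push f x) q := by
  intro Z
  constructor
  · rw [C.base_fst, ← C.push_comp, prodMap_snd, Category.comp_id, (h Z).1]
  · rw [C.base_snd, ← C.push_comp, prodMap_fst, Category.comp_id, (h Z).2]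

lemma hasDegree_ext' {x : C.A X} {y : C.A Y} {q r : ℚ} (h : HasDegree C x q)
    (h' : HasDegree C y r) : HasDegree C (C.ext x y) (q * r) := by
  intro Z
  constructor
  · have e1 : snd (X.prod Y) Z = aI X Y Z ≫ snd X (Y.prod Z) ≫ snd Y Z := by simp [aI]
    have e2 : C.pull (fst (X.prod Y) Z) (C.ext x y) =
        C.pull (aI X Y Z) (C.ext x (C.pull (fst Y Z) y)) := by
      rw [TheoryData.ext, TheoryData.ext, map_mul, map_mul, ← C.pull_comp, ← C.pull_comp,
        ← C.pull_comp, ← C.pull_comp, ← C.pull_comp]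
      congr 2
      · congr 1
        simp [aI]
      · congr 1
        simp [aI]
    rw [e1, e2, ← push_model C (aI X Y Z) (aJ X Y Z) aI_aJ aJ_aI, C.push_comp, TheoryData.ext,
      C.proj_right, (h _).1, smul_mul_assoc, one_mul, map_smul, (h' _).1, smul_smul]
  · have e1 : fst Z (X.prod Y) = aJ Z X Y ≫ fst (Z.prod X) Y ≫ fst Z X := by simp [aJ]
    have e2 : C.pull (snd Z (X.prod Y)) (C.ext x y) =
        C.pull (aJ Z X Y) (C.ext (C.pull (snd Z X) x) y) := by
      rw [TheoryData.ext, TheoryData.ext, map_mul, map_mul, ← C.pull_comp, ← C.pull_comp,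
        ← C.pull_comp, ← C.pull_comp, ← C.pull_comp]
      congr 2
      · congr 1
        simp [aJ]
      · congr 1
        simp [aJ]
    rw [e1, e2, ← push_model C (aJ Z X Y) (aI Z X Y) aJ_aI aI_aJ, C.push_comp, TheoryData.ext,
      C.proj_left, (h' _).2, mul_smul_comm, mul_one, map_smul, (h _).2, smul_smul, mul_comm r q]

lemma slice_mem {s t : ℤ} {β β' : C.A (P.prod P)} (hβ : C.Deg s β) (hβ' : C.Deg t β')
    (hst : s + t = 2 * P.dim) {γ : C.A ((X.prod P).prod (X.prod P))}
    (hγ : C.Deg (X.prod P).dim γ) : C.Deg X.dim (slice C β β' γ) := by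
  have h1 : roof C (prX X P) (𝟙 _) (C.pull (prP X P) β) ∈
      C.gr (X.prod ((X.prod P).prod P)) (X.dim + s) := by
    have h := C.push_mem (Obj.lift (prX X P) (𝟙 _)) (C.pull_mem (prP X P) hβ)
    have e : s + 1 * (((X.prod ((X.prod P).prod P)).dim : ℤ) - (((X.prod P).prod P).dim : ℤ)) =
        X.dim + s := by
      rw [dim_prod X ((X.prod P).prod P)]; push_cast; ring
    rwa [e] at h
  have h2 : tens C γ (dg C P) ∈ C.gr (((X.prod P).prod P).prod ((X.prod P).prod P))
      ((((X.prod P).prod P).dim : ℤ) + 0) := by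
    have h := tens_mem C hγ (dg_mem C P)
    have e : ((((X.prod P).prod P).dim : ℤ) + 0) = ((X.prod P).dim : ℤ) + P.dim := by
      rw [dim_prod (X.prod P) P]; push_cast; ring
    rw [e]
    exact h
  have h3 : roof C (𝟙 _) (prX X P) (C.pull (prP X P) β') ∈
      C.gr (((X.prod P).prod P).prod X) ((((X.prod P).prod P).dim : ℤ) + (t - 2 * P.dim)) := by
    have h := C.push_mem (Obj.lift (𝟙 _) (prX X P)) (C.pull_mem (prP X P) hβ')
    have e : t + 1 * (((((X.prod P).prod P).prod X).dim : ℤ) - (((X.prod P).prod P).dim : ℤ)) =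
        (((X.prod P).prod P).dim : ℤ) + (t - 2 * P.dim) := by
      rw [dim_prod ((X.prod P).prod P) X, dim_prod (X.prod P) P, dim_prod X P]; push_cast; ring
    rwa [e] at h
  have h4 := comp_mem C (comp_mem C h1 h2) h3
  have e : (X.dim : ℤ) + (s + 0 + (t - 2 * P.dim)) = X.dim := by omega
  rw [e] at h4
  exact h4

end chow

section weil

variable {C : TheoryData.{u, v, 0} 𝒱 ℚ} [hC : IsChowProj C] {K : Type w} [Field K]
  {H : WeilTheoryData.{u, v, w} C K} [hH : IsWeilProj H] {X Y Z W P E : 𝒱.Obj} {F : Subfield K}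

include hC hH

lemma cl_roof (f : W ⟶ X) (g : W ⟶ Y) (w : C.A W) :
    H.cl (roof C f g w) = roof H.toTheoryData f g (H.cl w) := H.cl_push _ _

lemma cl_slice (β β' : C.A (P.prod P)) (γ : C.A ((X.prod P).prod (X.prod P))) :
    H.cl (slice C β β' γ) = slice H.toTheoryData (H.cl β) (H.cl β') (H.cl γ) := by
  rw [slice, slice, cl_comp, cl_comp, cl_roof, cl_roof, cl_tens, cl_dg, H.cl_pull, H.cl_pull]

lemma cl_mem_classSpan {γ : C.A (X.prod X)} (h : C.Deg X.dim γ) :
    H.cl γ ∈ classSpan H F X := Submodule.subset_span ⟨γ, h, rfl⟩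

lemma classSpan_le (M : Submodule K (H.A (X.prod X)))
    (h : ∀ γ : C.A (X.prod X), C.Deg X.dim γ → H.cl γ ∈ M) {c : H.A (X.prod X)}
    (hc : c ∈ classSpan H F X) : c ∈ M := by
  have h1 : classSpan H F X ≤ M.restrictScalars F := by
    apply Submodule.span_le.2
    rintro c ⟨γ, hγ, rfl⟩
    exact h γ hγ
  exact h1 hc

lemma classSpan_map (L : H.A (X.prod X) →ₗ[K] H.A (Y.prod Y))
    (h : ∀ γ : C.A (X.prod X), C.Deg X.dim γ → L (H.cl γ) ∈ classSpan H F Y)
    {c : H.A (X.prod X)} (hc : c ∈ classSpan H F X) : L c ∈ classSpan H F Y := by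
  have h1 : classSpan H F X ≤ (classSpan H F Y).comap (L.restrictScalars F) := by
    apply Submodule.span_le.2
    rintro c ⟨γ, hγ, rfl⟩
    exact h γ hγ
  exact h1 hc

lemma classSpan_central {c : H.A (X.prod X)} (hc : c ∈ classSpan H F X) (z : H.A (X.prod X)) :
    c * z = z * c := by
  have h1 := classSpan_le (H := H) (Subalgebra.toSubmodule (Subalgebra.center K (H.A (X.prod X))))
    (fun γ _ => (Subalgebra.mem_center_iff (R := K)).2 fun z => (H.cl_central γ z).symm) hc
  exact ((Subalgebra.mem_center_iff (R := K)).1 h1 z).symm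

lemma classSpan_gr {c : H.A (X.prod X)} (hc : c ∈ classSpan H F X) :
    c ∈ H.gr (X.prod X) (2 * X.dim) :=
  classSpan_le _ (fun _ hγ => H.cl_mem hγ) hc

lemma classSpan_comp {c d : H.A (X.prod X)} (hc : c ∈ classSpan H F X)
    (hd : d ∈ classSpan H F X) : H.comp c d ∈ classSpan H F X := by
  refine classSpan_map ((compL H.toTheoryData).flip d) (fun γ hγ => ?_) hc
  refine classSpan_map (compL H.toTheoryData (H.cl γ)) (fun γ' hγ' => ?_) hd
  have h1 : compL H.toTheoryData (H.cl γ) (H.cl γ') = H.cl (C.comp γ γ') := (cl_comp H _ _).symm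
  rw [h1]
  exact cl_mem_classSpan (comp_mem0 C hγ hγ')

lemma classSpan_tp {c : H.A (X.prod X)} (hc : c ∈ classSpan H F X) :
    tp H.toTheoryData c ∈ classSpan H F X := by
  refine classSpan_map (H.pull (sw X X)).toLinearMap (fun γ hγ => ?_) hc
  have h1 : (H.pull (sw X X)).toLinearMap (H.cl γ) = H.cl (tp C γ) := (cl_tp H _).symm
  rw [h1]
  exact cl_mem_classSpan (tp_mem C hγ)

/-- Correspondences of degree zero preserve the degrees. -/
lemma act_gr {c : H.A (X.prod X)} (hc : c ∈ H.gr (X.prod X) (2 * X.dim)) {l : ℤ} {a : H.A X}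
    (ha : a ∈ H.gr X l) : H.act c a ∈ H.gr X l := by
  rw [TheoryData.act_apply]
  have h := H.push_mem (snd X X) (H.mul_mem hc (H.pull_mem (fst X X) ha))
  have e : (2 * (X.dim : ℤ) + l + 2 * ((X.dim : ℤ) - ((X.prod X).dim : ℤ))) = l := by
    rw [dim_prod]; push_cast; ring
  rwa [e] at h

/-- The transpose is the adjoint for the Poincare pairing. -/
lemma tr_tp {c : H.A (X.prod X)} (hc : ∀ z, c * z = z * c) (a b : H.A X) :
    H.tr X (H.act (tp H.toTheoryData c) b * a) = H.tr X (b * H.act c a) := by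
  rw [act_tp, ← H.proj_right, H.tr_push, TheoryData.act_apply, ← H.proj_left, H.tr_push,
    ← mul_assoc, ← hc]

/-- The middle projector from the separation of the middle cohomology from the lower one. -/
lemma component_of_splits (h : SplitsFromBelow H F X) : ComponentAlgebraic H F X X.dim := by
  obtain ⟨c, hc, hact⟩ := h
  have hgr := classSpan_gr hc
  have htp : ∀ (l : ℤ) (b : H.A X), b ∈ H.gr X l → (X.dim : ℤ) ≤ l →
      H.act (tp H.toTheoryData c) b = if l = X.dim then b else 0 := by
    intro l b hb hl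
    rw [← sub_eq_zero]
    apply H.nondeg
    have h0 : H.tr X ∘ₗ LinearMap.mulLeft K (H.act (tp H.toTheoryData c) b) =
        H.tr X ∘ₗ LinearMap.mulLeft K (if l = X.dim then b else 0) := by
      apply ext_gr H
      intro m a ha
      rw [LinearMap.comp_apply, LinearMap.comp_apply, LinearMap.mulLeft_apply,
        LinearMap.mulLeft_apply, tr_tp (classSpan_central hc)]
      by_cases hm : l + m = 2 * X.dim
      · rw [hact m a ha (by omega)]
        by_cases h1 : l = X.dim
        · rw [if_pos h1, if_pos (by omega)]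
        · rw [if_neg h1, if_neg (by omega), mul_zero, zero_mul]
      · rw [tr_zero H (H.mul_mem hb (act_gr hgr ha)) hm]
        split_ifs
        · exact (tr_zero H (H.mul_mem hb ha) hm).symm
        · rw [zero_mul, map_zero]
    intro a
    have h3 := LinearMap.congr_fun h0 a
    rw [LinearMap.comp_apply, LinearMap.comp_apply, LinearMap.mulLeft_apply,
      LinearMap.mulLeft_apply] at h3
    rw [sub_mul, map_sub, h3, sub_self]
  refine ⟨H.comp c (tp H.toTheoryData c), classSpan_comp hc (classSpan_tp hc), ?_⟩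
  intro l a ha
  rw [H.act_comp]
  rcases le_or_gt l X.dim with hl | hl
  · rw [hact l a ha hl]
    split_ifs with h1
    · rw [htp l a ha (by omega), if_pos h1]
    · rw [TheoryData.act_map_zero]
  · rw [htp l _ (act_gr hgr ha) hl.le, if_neg (by omega), if_neg (by omega)]

lemma splits_iff : SplitsFromBelow H F X ↔ ComponentAlgebraic H F X X.dim :=
  ⟨component_of_splits, fun ⟨c, hc, h⟩ => ⟨c, hc, fun l a ha _ => h l a ha⟩⟩

/-- Components outside of the range `0, …, 2 dim X`. -/
lemma component_out {i : ℤ} (hi : i < 0 ∨ 2 * (X.dim : ℤ) < i) : ComponentAlgebraic H F X i := by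
  refine ⟨0, Submodule.zero_mem _, fun l a ha => ?_⟩
  rw [TheoryData.act_zero]
  split_ifs with h
  · subst h
    rcases hi with hi | hi
    · have ha' : a ∈ H.gr X l := ha
      rw [H.gr_neg X l hi] at ha'
      exact ((Submodule.mem_bot _).1 ha').symm
    · have ha' : a ∈ H.gr X l := ha
      rw [gr_top H hi] at ha'
      exact ((Submodule.mem_bot _).1 ha').symm
  · rfl

/-- Slices of projectors. -/
lemma component_slice {j s t : ℤ} {β β' : C.A (P.prod P)} (hβ : C.Deg s β) (hβ' : C.Deg t β')
    (hst : s + t = 2 * P.dim)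
    (hj : H.cl β ∈ Submodule.span K {z | ∃ b ∈ H.gr P j, ∃ b' : H.A P, z = H.ext b b'})
    (hdeg : HasDegree C (β' * β) 1) {N : ℤ} (h : ComponentAlgebraic H F (X.prod P) N) :
    ComponentAlgebraic H F X (N - j) := by
  obtain ⟨c, hc, hact⟩ := h
  refine ⟨sliceL H.toTheoryData X (H.cl β) (H.cl β') c, ?_, ?_⟩
  · refine classSpan_map _ (fun γ hγ => ?_) hc
    rw [sliceL_apply, ← cl_slice]
    exact cl_mem_classSpan (slice_mem hβ hβ' hst hγ)
  · intro l a ha
    rw [sliceL_apply, act_slice]
    have key : ∀ w ∈ Submodule.span K {z | ∃ b ∈ H.gr P j, ∃ b' : H.A P, z = H.ext b b'},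
        H.act (tens H.toTheoryData c (dg H.toTheoryData P))
          (H.pull (prX X P) a * H.pull (prP X P) w) =
        if l + j = N then H.pull (prX X P) a * H.pull (prP X P) w else 0 := by
      intro w hw
      induction hw using Submodule.span_induction with
      | mem w hw =>
        obtain ⟨b, hb, b', rfl⟩ := hw
        rw [ext_ext, act_tens_ext H.toTheoryData _ _ (by
          intro V f c
          rw [← cl_dg H, ← H.cl_pull, H.cl_central]), act_dg]
        have h1 : H.ext a b ∈ H.gr (X.prod P) (l + j) :=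
          H.mul_mem (H.pull_mem _ ha) (H.pull_mem _ hb)
        rw [hact _ _ h1]
        split_ifs
        · rfl
        · rw [TheoryData.ext_zero_left]
      | zero =>
        rw [map_zero, mul_zero, TheoryData.act_map_zero]
        split_ifs <;> rfl
      | add x y _ _ hx hy =>
        rw [map_add, mul_add, act_map_add, hx, hy]
        split_ifs
        · rfl
        · exact add_zero 0
      | smul r x _ hx =>
        rw [map_smul, mul_smul_comm, act_map_smul, hx]
        split_ifs
        · rfl
        · exact smul_zero r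
    have h1 : H.pull (prP X P) (H.cl β) * H.pull (prX X P) a =
        H.pull (prX X P) a * H.pull (prP X P) (H.cl β) := by
      rw [← H.cl_pull, H.cl_central]
    rw [h1, key _ hj]
    by_cases h2 : l + j = N
    · rw [if_pos h2, if_pos (by omega), ← h1, ← mul_assoc, ← map_mul, ← map_mul, H.proj_right,
        ← H.cl_pull, ← H.cl_push, push_prX C (β' * β) 1 (hdeg X).2, one_smul, map_one, one_mul]
    · rw [if_neg h2, if_neg (by omega), mul_zero, map_zero]

/-! ### Curves -/

/-- The projector onto the middle part of the motive of a curve. -/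
noncomputable def midE (C : TheoryData.{u, v, 0} 𝒱 ℚ) (e : C.A E) : C.A (E.prod E) :=
  dg C E - C.ext e 1 - C.ext 1 e

omit hH in
lemma midE_mem {e : C.A E} (hE : E.dim = 1) (he : e ∈ C.gr E 1) :
    midE C e ∈ C.gr (E.prod E) 1 := by
  have h0 := dg_mem C E
  have h1 := ext_mem' he (C.one_mem E)
  have h2 := ext_mem' (C.one_mem E) he
  rw [hE] at h0
  exact Submodule.sub_mem _ (Submodule.sub_mem _ (by exact_mod_cast h0) (by exact_mod_cast h1))
    (by exact_mod_cast h2)

lemma cl_ext (a : C.A X) (b : C.A Y) : H.cl (C.ext a b) = H.ext (H.cl a) (H.cl b) := by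
  rw [TheoryData.ext, map_mul, H.cl_pull, H.cl_pull]
  rfl

/-- The classes of the form `∑ b × b'` with `b ∈ H^j(P)`. -/
noncomputable def firstDeg (H : WeilTheoryData.{u, v, w} C K) (P : 𝒱.Obj) (j : ℤ) :
    Submodule K (H.A (P.prod P)) :=
  Submodule.span K {z | ∃ b ∈ H.gr P j, ∃ b' : H.A P, z = H.ext b b'}

lemma ext_mem_firstDeg {j : ℤ} {b : H.A P} (hb : b ∈ H.gr P j) (b' : H.A P) :
    H.ext b b' ∈ firstDeg H P j := Submodule.subset_span ⟨b, hb, b', rfl⟩

lemma push_snd_low {b : H.A P} {j : ℤ} (hb : b ∈ H.gr P j) (hj : j < 2 * P.dim) :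
    H.push (snd P Y) (H.pull (fst P Y) b) = 0 := by
  have h := H.push_mem (snd P Y) (H.pull_mem (fst P Y) hb)
  rw [H.gr_neg Y _ (by rw [dim_prod]; push_cast; omega)] at h
  exact (Submodule.mem_bot _).1 h

lemma act_firstDeg_one {j : ℤ} (hj : j < 2 * P.dim) {z : H.A (P.prod P)}
    (hz : z ∈ firstDeg H P j) : H.act z 1 = 0 := by
  induction hz using Submodule.span_induction with
  | mem z hz =>
    obtain ⟨b, hb, b', rfl⟩ := hz
    rw [TheoryData.act_apply, map_one, mul_one, TheoryData.ext, H.proj_right,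
      push_snd_low hb hj, zero_mul]
  | zero => exact TheoryData.act_zero _ _
  | add x y _ _ hx hy => rw [TheoryData.act_add, hx, hy, add_zero]
  | smul r x _ hx =>
    have h1 : H.act (r • x) 1 = r • H.act x 1 := by
      rw [← actB_apply H.toTheoryData, map_smul]
      rfl
    rw [h1, hx, smul_zero]

lemma act_firstDeg_top {j : ℤ} (hj : 0 < j) {e : C.A P} (he : e ∈ C.gr P P.dim)
    {z : H.A (P.prod P)} (hz : z ∈ firstDeg H P j) : H.act z (H.cl e) = 0 := by
  induction hz using Submodule.span_induction with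
  | mem z hz =>
    obtain ⟨b, hb, b', rfl⟩ := hz
    have h0 : H.cl e * b = 0 := by
      have h := H.mul_mem (H.cl_mem he) hb
      rw [gr_top H (by omega)] at h
      exact (Submodule.mem_bot _).1 h
    rw [TheoryData.act_apply, ← H.cl_pull, ← H.cl_central, H.cl_pull, TheoryData.ext, ← mul_assoc,
      ← map_mul, h0, map_zero, zero_mul, map_zero]
  | zero => exact TheoryData.act_zero _ _
  | add x y _ _ hx hy => rw [TheoryData.act_add, hx, hy, add_zero]
  | smul r x _ hx =>
    have h1 : H.act (r • x) (H.cl e) = r • H.act x (H.cl e) := by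
      rw [← actB_apply H.toTheoryData, map_smul]
      rfl
    rw [h1, hx, smul_zero]

/-- The middle projector of a curve lies in `H^1 × H^1`. -/
lemma midE_firstDeg {e : C.A E} (hE : E.dim = 1) (he : e ∈ C.gr E 1) (hd : HasDegree C e 1) :
    H.cl (midE C e) ∈ firstDeg H E 1 := by
  have heE : e ∈ C.gr E E.dim := by rw [hE]; exact_mod_cast he
  have hcl : H.cl (midE C e) ∈ H.gr (E.prod E) 2 := by
    have := H.cl_mem (midE_mem hE he)
    exact_mod_cast this
  have hle : H.gr (E.prod E) 2 ≤ firstDeg H E 1 ⊔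
      Submodule.span K {H.cl (C.ext (1 : C.A E) e), H.cl (C.ext e (1 : C.A E))} := by
    refine (H.kunneth E E 2).trans (Submodule.span_le.2 ?_)
    rintro c ⟨l, a, b, ha, hb, rfl⟩
    rw [SetLike.mem_coe]
    change H.ext a b ∈ _
    rcases lt_trichotomy l 1 with h | h | h
    · rcases (show l < 0 ∨ l = 0 by omega) with h | h
      · rw [H.gr_neg E l h, Submodule.mem_bot] at ha
        rw [ha, TheoryData.ext_zero_left]
        exact Submodule.zero_mem _
      · subst h
        obtain ⟨r, rfl⟩ := hH.gr_zero E a ha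
        obtain ⟨s, rfl⟩ := top_eq heE hd (y := b) (by rw [hE]; exact_mod_cast hb)
        refine Submodule.mem_sup_right ?_
        have h1 : H.ext (r • (1 : H.A E)) (s • H.cl e) =
            (r * s) • H.cl (C.ext (1 : C.A E) e) := by
          rw [cl_ext, map_one, TheoryData.ext, TheoryData.ext, map_smul, map_smul,
            smul_mul_smul_comm]
        rw [h1]
        exact Submodule.smul_mem _ _ (Submodule.subset_span (Set.mem_insert _ _))
    · subst h
      exact Submodule.mem_sup_left (ext_mem_firstDeg ha b)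
    · rcases (show l = 2 ∨ 2 < l by omega) with h | h
      · subst h
        obtain ⟨r, rfl⟩ := hH.gr_zero E b (by simpa using hb)
        obtain ⟨s, rfl⟩ := top_eq heE hd (y := a) (by rw [hE]; exact_mod_cast ha)
        refine Submodule.mem_sup_right ?_
        have h1 : H.ext (s • H.cl e) (r • (1 : H.A E)) =
            (s * r) • H.cl (C.ext e (1 : C.A E)) := by
          rw [cl_ext, map_one, TheoryData.ext, TheoryData.ext, map_smul, map_smul,
            smul_mul_smul_comm]
        rw [h1]
        exact Submodule.smul_mem _ _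
          (Submodule.subset_span (Set.mem_insert_of_mem _ (Set.mem_singleton _)))
      · rw [gr_top H (by rw [hE]; push_cast; omega), Submodule.mem_bot] at ha
        rw [ha, TheoryData.ext_zero_left]
        exact Submodule.zero_mem _
  obtain ⟨s, hs, t, ht, hst⟩ := Submodule.mem_sup.1 (hle hcl)
  obtain ⟨x, y, rfl⟩ := Submodule.mem_span_pair.1 ht
  have a1 : C.act (C.ext e (1 : C.A E)) 1 = 1 := by
    rw [act_ext' (q := 1) (by rwa [mul_one]), one_smul]
  have a2 : C.act (C.ext (1 : C.A E) e) 1 = 0 := by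
    rw [act_ext' (q := 0), zero_smul]
    rw [one_mul]
    exact hasDegree_of_ne (C.one_mem E) (by rw [hE]; norm_num)
  have a3 : C.act (C.ext e (1 : C.A E)) e = 0 := by
    rw [act_ext' (q := 0), zero_smul]
    exact hasDegree_of_ne (C.mul_mem he he) (by rw [hE]; norm_num)
  have a4 : C.act (C.ext (1 : C.A E) e) e = e := by
    rw [act_ext' (q := 1) (by rwa [one_mul]), one_smul]
  have b1 : C.act (midE C e) 1 = 0 := by
    rw [midE, C.act_sub, C.act_sub, act_dg, a1, a2, sub_self, sub_zero]
  have b2 : C.act (midE C e) e = 0 := by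
    rw [midE, C.act_sub, C.act_sub, act_dg, a3, a4, sub_zero, sub_self]
  have c1 : H.act (H.cl (midE C e)) 1 = 0 := by
    rw [← map_one H.cl, ← cl_act H, b1, map_zero]
  have c2 : H.act (H.cl (midE C e)) (H.cl e) = 0 := by
    rw [← cl_act H, b2, map_zero]
  have hsm : ∀ (r : K) (c : H.A (E.prod E)) (a : H.A E), H.act (r • c) a = r • H.act c a := by
    intro r c a
    rw [← actB_apply H.toTheoryData, map_smul]
    rfl
  have d1 : y = 0 := by
    rw [← hst, TheoryData.act_add, TheoryData.act_add, hsm, hsm,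
      act_firstDeg_one (by rw [hE]; norm_num) hs, ← map_one H.cl, ← cl_act H, ← cl_act H, a1, a2,
      map_zero, map_one, smul_zero, zero_add, zero_add] at c1
    by_contra hy
    apply hH.one_ne_zero E
    rw [← one_smul K (1 : H.A E), ← inv_mul_cancel₀ hy, mul_smul, c1, smul_zero]
  have d2 : x • H.cl e = 0 := by
    rw [← hst, TheoryData.act_add, TheoryData.act_add, hsm, hsm,
      act_firstDeg_top (by norm_num) heE hs, ← cl_act H, ← cl_act H, a3, a4,
      map_zero, smul_zero, zero_add, add_zero] at c2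
    exact c2
  have d3 : x • H.cl (C.ext (1 : C.A E) e) = 0 := by
    rw [cl_ext, TheoryData.ext, ← mul_smul_comm, ← map_smul, d2, map_zero, mul_zero]
  rw [← hst, d1, zero_smul, d3, add_zero, add_zero]
  exact hs

/-- The product of projectors. -/
lemma component_prod (hE : E.dim = 1) {N : ℤ} (h0 : ComponentAlgebraic H F X N)
    (h1 : ComponentAlgebraic H F X (N - 1)) (h2 : ComponentAlgebraic H F X (N - 2)) :
    ComponentAlgebraic H F (X.prod E) N := by
  obtain ⟨τ, hτ, -⟩ := exists_CK_curve (C := C) H E hE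
  have h' : ∀ j : ℕ, j < 3 → ComponentAlgebraic H F X (N - j) := by
    intro j hj
    rcases j with _ | _ | _ | j
    · simpa using h0
    · simpa using h1
    · simpa using h2
    · omega
  have h : ∀ j : ℕ, j < 3 → ∃ c ∈ classSpan H F X, ∀ (l : ℤ) (a : H.A X), H.Deg l a →
      H.act c a = if l = N - j then a else 0 := h'
  choose! c hc hact using h
  have hτact : ∀ (j : ℕ) (m : ℤ) (b : H.A E), b ∈ H.gr E m →
      H.act (H.cl (τ j)) b = if m = j then b else 0 := fun j m b hb => hτ.actH_eq j m hb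
  refine ⟨∑ j ∈ Finset.range 3, tens H.toTheoryData (c j) (H.cl (τ j)), ?_, ?_⟩
  · refine Submodule.sum_mem _ fun j hj => ?_
    rw [Finset.mem_range] at hj
    refine classSpan_map (tensR H.toTheoryData (H.cl (τ j))) (fun γ hγ => ?_) (hc j hj)
    rw [tensR_apply, ← cl_tens]
    refine cl_mem_classSpan ?_
    have h3 := tens_mem C hγ (hτ.deg j)
    change _ ∈ C.gr _ _
    rw [dim_prod X E]
    push_cast
    exact h3
  · intro m z hz
    have h4 := H.kunneth X E m hz
    clear hz
    induction h4 using Submodule.span_induction with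
    | mem x hx =>
      obtain ⟨l, a, b, ha, hb, rfl⟩ := hx
      by_cases hb0 : b = 0
      · subst hb0
        rw [map_zero, mul_zero, TheoryData.act_map_zero]
        split_ifs <;> rfl
      have hl0 := nonneg_of_mem H hb hb0
      have hl2 : m - l ≤ 2 := by
        by_contra hcon
        rw [gr_top H (by rw [hE]; push_cast; omega)] at hb
        exact hb0 ((Submodule.mem_bot _).1 hb)
      have e0 : H.pull (fst X E) a * H.pull (snd X E) b = H.ext a b := rfl
      rw [e0, act_sum]
      have e1 : ∀ j ∈ Finset.range 3, H.act (tens H.toTheoryData (c j) (H.cl (τ j))) (H.ext a b) =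
          if m = N ∧ m - l = j then H.ext a b else 0 := by
        intro j hj
        rw [Finset.mem_range] at hj
        rw [act_tens_ext H.toTheoryData _ _ (by
          intro V f c
          rw [← H.cl_pull, H.cl_central]), hact j hj l a ha, hτact j _ b hb]
        by_cases h5 : m - l = j
        · by_cases h6 : m = N
          · rw [if_pos (by omega), if_pos h5, if_pos ⟨h6, h5⟩]
          · have h7 : ¬ (l = N - j) := by omega
            have h8 : ¬ (m = N ∧ m - l = j) := fun h => h6 h.1
            rw [if_neg h7, if_neg h8, TheoryData.ext_zero_left]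
        · have h8 : ¬ (m = N ∧ m - l = j) := fun h => h5 h.2
          rw [if_neg h5, if_neg h8, TheoryData.ext_zero_right]
      rw [Finset.sum_congr rfl e1]
      by_cases h6 : m = N
      · rw [if_pos h6, Finset.sum_eq_single (m - l).toNat]
        · rw [if_pos ⟨h6, by omega⟩]
        · intro j _ hj
          rw [if_neg (fun h => hj (by omega))]
        · intro h
          rw [Finset.mem_range] at h
          omega
      · rw [if_neg h6]
        exact Finset.sum_eq_zero fun j _ => if_neg (fun h => h6 h.1)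
    | zero =>
      rw [TheoryData.act_map_zero]
      split_ifs <;> rfl
    | add x y _ _ hx hy =>
      rw [act_map_add, hx, hy]
      split_ifs
      · rfl
      · exact add_zero 0
    | smul r x _ hx =>
      rw [act_map_smul, hx]
      split_ifs
      · rfl
      · exact smul_zero r

/-- One factor. -/
lemma component_prod_iff {g : ℕ} (hg : 0 < g) (hE : IsCurveOfGenus C E g) (X : 𝒱.Obj) (N : ℤ) :
    ComponentAlgebraic H F (X.prod E) N ↔ ComponentAlgebraic H F X N ∧
      ComponentAlgebraic H F X (N - 1) ∧ ComponentAlgebraic H F X (N - 2) := by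
  refine ⟨fun h => ?_, fun h => component_prod hE.1 h.1 h.2.1 h.2.2⟩
  have hE1 := hE.1
  obtain ⟨e, he, hd⟩ := exists_hasDegree_one (C := C) H E
  have he1 : e ∈ C.gr E 1 := by rw [hE1] at he; exact_mod_cast he
  have d1 : C.ext (1 : C.A E) e ∈ C.gr (E.prod E) 1 := by
    have := ext_mem' (C.one_mem E) he1
    exact_mod_cast this
  have d2 : C.ext e (1 : C.A E) ∈ C.gr (E.prod E) 1 := by
    have := ext_mem' he1 (C.one_mem E)
    exact_mod_cast this
  have hmul : C.ext e (1 : C.A E) * C.ext (1 : C.A E) e = C.ext e e := by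
    rw [TheoryData.ext, TheoryData.ext, TheoryData.ext, map_one, map_one, mul_one, one_mul]
  have hst : (1 : ℤ) + 1 = 2 * (E.dim : ℤ) := by rw [hE1]; norm_num
  have hee : HasDegree C (C.ext e e) 1 := by
    have := hasDegree_ext' hd hd
    rwa [one_mul] at this
  refine ⟨?_, ?_, ?_⟩
  · have h0 := component_slice (β := C.ext (1 : C.A E) e) (β' := C.ext e (1 : C.A E)) d1 d2 hst
      (j := 0) (by rw [cl_ext, map_one]; exact ext_mem_firstDeg (H.one_mem E) _)
      (by rw [hmul]; exact hee) h
    rwa [sub_zero] at h0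
  · set G : ℚ := -(2 * g : ℚ) with hG
    have hG0 : G ≠ 0 := by
      have : (0 : ℚ) < g := by exact_mod_cast hg
      rw [hG]
      intro h
      linarith
    have hdg : HasDegree C (dg C E * midE C e) G := by
      have e1 : dg C E * midE C e = C.push (Obj.lift (𝟙 E) (𝟙 E))
          (C.pull (Obj.lift (𝟙 E) (𝟙 E)) (midE C e)) := by
        rw [dg, TheoryData.graph, ← C.proj_right, one_mul]
      rw [e1]
      apply hasDegree_push
      have h1 : C.pull (Obj.lift (𝟙 E) (𝟙 E)) (C.ext e (1 : C.A E)) = e := by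
        rw [TheoryData.ext, map_mul, ← C.pull_comp, ← C.pull_comp, lift_fst, lift_snd, C.pull_id,
          C.pull_id, mul_one]
      have h2 : C.pull (Obj.lift (𝟙 E) (𝟙 E)) (C.ext (1 : C.A E) e) = e := by
        rw [TheoryData.ext, map_mul, ← C.pull_comp, ← C.pull_comp, lift_fst, lift_snd, C.pull_id,
          C.pull_id, one_mul]
      rw [midE, map_sub, map_sub, h1, h2]
      have h3 := hasDegree_sub' (hasDegree_sub' hE.2 hd) hd
      have e2 : (2 - 2 * (g : ℚ) - 1 - 1) = G := by rw [hG]; ring
      rwa [e2] at h3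
    have hdm : G⁻¹ • dg C E ∈ C.gr (E.prod E) 1 := by
      have h0 := dg_mem C E
      rw [hE1] at h0
      exact Submodule.smul_mem _ _ (by exact_mod_cast h0)
    refine component_slice (β := midE C e) (β' := G⁻¹ • dg C E) (midE_mem hE1 he1) hdm hst
      (j := 1) (midE_firstDeg hE1 he1 hd) ?_ h
    rw [smul_mul_assoc]
    have := hasDegree_smul' G⁻¹ hdg
    rwa [inv_mul_cancel₀ hG0] at this
  · exact component_slice (β := C.ext e (1 : C.A E)) (β' := C.ext (1 : C.A E) e) d2 d1 hst
      (j := 2) (by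
        rw [cl_ext, map_one]
        have := H.cl_mem he1
        exact ext_mem_firstDeg (by exact_mod_cast this) _)
      (by rw [ch_comm C, hmul]; exact hee) h

lemma dim_timesPow (hE : E.dim = 1) (X : 𝒱.Obj) (r : ℕ) : (timesPow X E r).dim = X.dim + r := by
  induction r with
  | zero => rfl
  | succ r ih =>
    change ((timesPow X E r).prod E).dim = _
    rw [dim_prod, ih, hE]
    omega

/-- `r` factors. -/
theorem component_pow_iff {g : ℕ} (hg : 0 < g) (hE : IsCurveOfGenus C E g) (X : 𝒱.Obj) (r : ℕ) :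
    ∀ N : ℤ, ComponentAlgebraic H F (timesPow X E r) N ↔
      ∀ i : ℤ, N - 2 * r ≤ i → i ≤ N → ComponentAlgebraic H F X i := by
  induction r with
  | zero =>
    intro N
    refine ⟨fun h i h1 h2 => ?_, fun h => h N (by simp) le_rfl⟩
    obtain rfl : i = N := by push_cast at h1; omega
    exact h
  | succ r ih =>
    intro N
    change ComponentAlgebraic H F ((timesPow X E r).prod E) N ↔ _
    rw [component_prod_iff hg hE, ih, ih, ih]
    push_cast
    refine ⟨fun ⟨h0, h1, h2⟩ i hi1 hi2 => ?_, fun h => ⟨fun i hi1 hi2 => h i (by omega) hi2,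
      fun i hi1 hi2 => h i (by omega) (by omega), fun i hi1 hi2 => h i (by omega) (by omega)⟩⟩
    by_cases h3 : N - 2 * r ≤ i
    · exact h0 i h3 hi2
    · by_cases h4 : N - 1 - 2 * r ≤ i
      · exact h1 i h4 (by omega)
      · exact h2 i (by omega) (by omega)

/-- All components of one variety. -/
theorem all_iff {g : ℕ} (hg : 0 < g) (hE : IsCurveOfGenus C E g) (X : 𝒱.Obj) {r : ℕ} {N : ℤ}
    (h1 : 2 * X.dim ≤ N) (h2 : N ≤ 2 * r) :
    ComponentAlgebraic H F (timesPow X E r) N ↔ ∀ i : ℤ, ComponentAlgebraic H F X i := by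
  rw [component_pow_iff (H := H) hg hE]
  refine ⟨fun h i => ?_, fun h i _ _ => h i⟩
  by_cases h3 : 0 ≤ i
  · by_cases h4 : i ≤ 2 * X.dim
    · exact h i (by omega) (by omega)
    · exact component_out (Or.inr (by omega))
  · exact component_out (Or.inl (by omega))

/-- The middle component. -/
theorem middle_iff {g : ℕ} (hg : 0 < g) (hE : IsCurveOfGenus C E g) (X : 𝒱.Obj) {r : ℕ}
    (hr : X.dim ≤ r) :
    (ComponentAlgebraic H F (timesPow X E r) (X.dim + r) ↔
      ∀ i : ℤ, ComponentAlgebraic H F X i) ∧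
    (SplitsFromBelow H F (timesPow X E r) ↔ ∀ i : ℤ, ComponentAlgebraic H F X i) := by
  have h1 : ComponentAlgebraic H F (timesPow X E r) (X.dim + r) ↔
      ∀ i : ℤ, ComponentAlgebraic H F X i := all_iff hg hE X (by omega) (by omega)
  refine ⟨h1, ?_⟩
  rw [← h1, splits_iff, dim_timesPow (H := H) hE.1]
  push_cast
  rfl

/-- One component in sufficiently many dimensions. -/
theorem family_iff {g : ℕ} (hg : 0 < g) (hE : IsCurveOfGenus C E g) {S : Set (ℕ × ℤ)}
    (hS : ∀ B : ℤ, ∃ p ∈ S, B ≤ p.2 ∧ B ≤ 2 * p.1 - p.2) :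
    (∀ (X : 𝒱.Obj) (i : ℤ), (X.dim, i) ∈ S → ComponentAlgebraic H F X i) ↔
      ∀ (X : 𝒱.Obj) (i : ℤ), ComponentAlgebraic H F X i := by
  refine ⟨fun h X => ?_, fun h X i _ => h X i⟩
  obtain ⟨⟨d, N⟩, hp, h1, h2⟩ := hS (2 * X.dim)
  simp only at h1 h2
  obtain ⟨r, rfl⟩ := Nat.exists_eq_add_of_le (show X.dim ≤ d by omega)
  rw [← all_iff (H := H) (F := F) hg hE X (r := r) (N := N) h1 (by omega)]
  exact h _ _ (by rwa [dim_timesPow (H := H) hE.1])

/-- Splitting off the middle cohomology from below, in infinitely many dimensions. -/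
theorem splits_family_iff {g : ℕ} (hg : 0 < g) (hE : IsCurveOfGenus C E g) {S : Set ℕ}
    (hS : S.Infinite) :
    (∀ X : 𝒱.Obj, X.dim ∈ S → SplitsFromBelow H F X) ↔
      ∀ (X : 𝒱.Obj) (i : ℤ), ComponentAlgebraic H F X i := by
  refine ⟨fun h => ?_, fun h X _ => splits_iff.2 (h X _)⟩
  rw [← family_iff (H := H) (F := F) hg hE (S := {p | p.1 ∈ S ∧ p.2 = p.1})]
  · rintro X i ⟨h1, h2⟩
    simp only at h1 h2
    rw [h2]
    exact splits_iff.1 (h X h1)
  · intro B
    obtain ⟨d, hd, hBd⟩ := hS.exists_gt B.toNat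
    refine ⟨(d, (d : ℤ)), ⟨hd, rfl⟩, ?_, ?_⟩
    · change B ≤ (d : ℤ)
      omega
    · change B ≤ 2 * (d : ℤ) - d
      omega

end weil

end Pool.Agent.TH26.Mid
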